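import Pool.Agent.Helper74.CW.Defs

/-!
# The points of `L_{S x T}` by weight
-/

namespace Pool.Agent.Helper74.CW

open Module Polynomial
open scoped LinearAlgebra.Projectivization

namespace PTS

variable {F K : Type*} [Field F] [Field K] [Algebra F K]

/-- The points of the projective line. -/
def pt (K : Type*) [Field K] : Option K → ℙ K (K × K)
  | none => Projectivization.mk K (1, 0) (by simp)
  | some t => Projectivization.mk K (t, 1) (by simp)

lemma pt_bijective : Function.Bijective (pt K) := by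
  constructor
  · intro p q h
    rcases p with _ | s <;> rcases q with _ | t
    · rfl
    · exfalso
      rw [pt, pt, Projectivization.mk_eq_mk_iff'] at h
      obtain ⟨a, ha⟩ := h
      simp only [Prod.smul_mk, smul_eq_mul, mul_one, Prod.mk.injEq] at ha
      rw [ha.2] at ha
      simp at ha
    · exfalso
      rw [pt, pt, Projectivization.mk_eq_mk_iff'] at h
      obtain ⟨a, ha⟩ := h
      simp at ha
    · rw [pt, pt, Projectivization.mk_eq_mk_iff'] at h
      obtain ⟨a, ha⟩ := h
      simp only [Prod.smul_mk, smul_eq_mul, mul_one, Prod.mk.injEq] at ha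
      rw [ha.2, one_mul] at ha
      rw [ha.1]
  · intro P
    induction P using Projectivization.ind with
    | h v hv =>
      obtain ⟨x, y⟩ := v
      by_cases hy : y = 0
      · subst hy
        have hx : x ≠ 0 := by
          rintro rfl
          exact hv rfl
        refine ⟨none, ?_⟩
        rw [pt, Projectivization.mk_eq_mk_iff']
        exact ⟨x⁻¹, by simp [hx]⟩
      · refine ⟨some (x / y), ?_⟩
        rw [pt, Projectivization.mk_eq_mk_iff']
        refine ⟨y⁻¹, ?_⟩
        simp [hy, div_eq_inv_mul]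

lemma wt_none (S T : Submodule F K) : wt (S.prod T) (pt K none) = finrank F S := by
  have hinj : Function.Injective (LinearMap.inl F K K) := LinearMap.inl_injective
  have : S.prod T ⊓ (pt K none).submodule.restrictScalars F = S.map (LinearMap.inl F K K) := by
    ext ⟨x, y⟩
    simp only [pt, Projectivization.submodule_mk, Submodule.mem_inf, Submodule.mem_prod,
      Submodule.restrictScalars_mem, Submodule.mem_span_singleton, Submodule.mem_map,
      LinearMap.inl_apply, Prod.mk.injEq, Prod.smul_mk, smul_eq_mul, mul_one, mul_zero]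
    constructor
    · rintro ⟨⟨hx, -⟩, a, rfl, rfl⟩
      exact ⟨a, hx, rfl, rfl⟩
    · rintro ⟨a, ha, rfl, rfl⟩
      exact ⟨⟨ha, T.zero_mem⟩, a, rfl, rfl⟩
  rw [wt, this]
  exact (LinearEquiv.finrank_eq (Submodule.equivMapOfInjective _ hinj S)).symm

/-- The graph map. -/
def gr (F : Type*) {K : Type*} [Field F] [Field K] [Algebra F K] (ξ : K) : K →ₗ[F] K × K :=
  (LinearMap.mulLeft F ξ).prod LinearMap.id

lemma wt_some (S T : Submodule F K) (ξ : K) :
    wt (S.prod T) (pt K (some ξ)) =
      finrank F ↥(T ⊓ S.comap (LinearMap.mulLeft F ξ)) := by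
  have hinj : Function.Injective (gr F ξ) := by
    intro a b h
    have := congrArg Prod.snd h
    simpa [gr] using this
  have : S.prod T ⊓ (pt K (some ξ)).submodule.restrictScalars F =
      (T ⊓ S.comap (LinearMap.mulLeft F ξ)).map (gr F ξ) := by
    ext ⟨x, y⟩
    simp only [pt, Projectivization.submodule_mk, Submodule.mem_inf, Submodule.mem_prod,
      Submodule.restrictScalars_mem, Submodule.mem_span_singleton, Submodule.mem_map,
      Prod.smul_mk, smul_eq_mul, mul_one, Submodule.mem_comap, LinearMap.mulLeft_apply]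
    constructor
    · rintro ⟨⟨hx, hy⟩, a, ha⟩
      rw [Prod.mk.injEq] at ha
      obtain ⟨rfl, rfl⟩ := ha
      exact ⟨a, ⟨hy, by rwa [mul_comm]⟩, Prod.ext (mul_comm _ _) rfl⟩
    · rintro ⟨a, ⟨ha, hb⟩, h⟩
      have h' : (ξ * a, a) = (x, y) := h
      rw [Prod.mk.injEq] at h'
      obtain ⟨rfl, rfl⟩ := h'
      exact ⟨⟨hb, ha⟩, a, by rw [mul_comm]⟩
  rw [wt, this]
  exact (LinearEquiv.finrank_eq (Submodule.equivMapOfInjective _ hinj _)).symm

lemma wt_zero (S T : Submodule F K) : wt (S.prod T) (pt K (some 0)) = finrank F T := by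
  rw [wt_some]
  have : T ⊓ S.comap (LinearMap.mulLeft F (0 : K)) = T := by
    refine inf_eq_left.mpr fun x _ => ?_
    rw [Submodule.mem_comap, LinearMap.mulLeft_apply, zero_mul]
    exact S.zero_mem
  rw [this]

lemma wt_ne (S T : Submodule F K) {ξ : K} (hξ : ξ ≠ 0) :
    wt (S.prod T) (pt K (some ξ)) = finrank F ↥(S ⊓ sc ξ T) := by
  rw [wt_some]
  have hinj : Function.Injective (LinearMap.mulLeft F ξ) := by
    intro a b h
    exact mul_left_cancel₀ hξ h
  have : S ⊓ sc ξ T = (T ⊓ S.comap (LinearMap.mulLeft F ξ)).map (LinearMap.mulLeft F ξ) := by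
    ext x
    simp only [sc, Submodule.mem_inf, Submodule.mem_map, Submodule.mem_comap,
      LinearMap.mulLeft_apply]
    constructor
    · rintro ⟨hx, t, ht, rfl⟩
      exact ⟨t, ⟨ht, hx⟩, rfl⟩
    · rintro ⟨t, ⟨ht, hx⟩, rfl⟩
      exact ⟨hx, t, ht, rfl⟩
  rw [this]
  exact LinearEquiv.finrank_eq (Submodule.equivMapOfInjective _ hinj _)

end PTS

variable {F K : Type*} [Field F] [Field K] [Algebra F K]

open PTS in
theorem Nw_prod [Finite K] (S T : Submodule F K) {i : ℕ} (hi : 1 ≤ i) :
    Nw (S.prod T) i = inn S T i + (if finrank F S = i then 1 else 0) +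
      (if finrank F T = i then 1 else 0) := by
  classical
  have _ := hi
  have _ := Fintype.ofFinite K
  have h1 : Nw (S.prod T) i = Nat.card {p : Option K // wt (S.prod T) (pt K p) = i} :=
    (Nat.card_congr ((Equiv.ofBijective (pt K) pt_bijective).subtypeEquiv (fun _ => Iff.rfl))).symm
  rw [h1, Nat.card_eq_fintype_card, Fintype.card_subtype, Finset.card_filter, Fintype.sum_option,
    wt_none]
  have h2 : inn S T i = ∑ ξ : K, if ξ ≠ 0 ∧ finrank F ↥(S ⊓ sc ξ T) = i then 1 else 0 := by
    rw [inn, Nat.card_eq_fintype_card, Fintype.card_subtype, Finset.card_filter]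
  rw [h2, ← Finset.add_sum_erase _ _ (Finset.mem_univ (0 : K)), wt_zero,
    ← Finset.add_sum_erase _ (fun ξ : K => if ξ ≠ 0 ∧ finrank F ↥(S ⊓ sc ξ T) = i then 1 else 0)
      (Finset.mem_univ (0 : K))]
  have h3 : ∀ ξ ∈ (Finset.univ.erase (0 : K)),
      (if wt (S.prod T) (pt K (some ξ)) = i then 1 else 0)
        = (if ξ ≠ 0 ∧ finrank F ↥(S ⊓ sc ξ T) = i then 1 else 0) := by
    intro ξ hξ
    have hne := Finset.ne_of_mem_erase hξ
    rw [wt_ne S T hne]
    simp [hne]
  rw [Finset.sum_congr rfl h3]
  simp only [ne_eq, not_true_eq_false, false_and, if_false]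
  omega

end Pool.Agent.Helper74.CW
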